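import Pool.Agent.Q117.ML.Par
import Pool.Agent.Q117.ML.EC

/-!
# The parity of the analytic rank over a number field from Frobenius traces

`K` is a number field, `E / K` an elliptic curve; for a finite place `P` let `q = |𝓞 K / P|`, let `a` be
`q` minus the number of affine points of the reduction of a model `M P` which is minimal at `P`, let `b = q` if
`E` has good reduction at `P` and `b = 0` otherwise, and let `tr a b k` be the sum of the `k`-th powers of the
two roots of `X² - a X + b`. For `γ > π/2`, a real number `σ` and `T > 0` put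

`S_σ(T) = ∑_P ∑_{k ≥ 1} (tr a b k / (k q^{k σ})) e^{iγ k log q/T} / Γ(1 + k log q/T)`,

an absolutely convergent series. Let `f` be an analytic continuation of `L(E/K, s)` to an open set that contains the
real half-line `[1, ∞)`. For every small `ε > 0`

`ord_{s = 1} f = lim_{T → ∞} (Im S_{1+ε}(T) - Im S_{1-ε}(T)) / π`,

and the parity statement of the question is decided by the sign of `Re (e^{S_{1-ε}(T)} e^{S_{1+ε}(T)})` for large
`T`, or along any sequence of numbers `T → ∞`.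
-/

set_option autoImplicit false

namespace Pool.Agent.Results.MP_413b36_nt.ParityByArguments

open Filter Topology NumberField Classical Pool.Agent.Q45.ML Pool.Agent.Q117.EC

theorem result (K : Type) [Field K] [NumberField K] (E : WeierstrassCurve K) [E.IsElliptic]
    (M : {P : Ideal (𝓞 K) // P.IsPrime ∧ P ≠ ⊥} → WeierstrassCurve (𝓞 K))
    (_hM : ∀ P, (∃ C : WeierstrassCurve.VariableChange K, C • E = (M P).map (algebraMap (𝓞 K) K)) ∧
      ∀ W : WeierstrassCurve (𝓞 K),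
        (∃ C : WeierstrassCurve.VariableChange K, C • E = W.map (algebraMap (𝓞 K) K)) →
        ∀ n : ℕ, (M P).Δ ∈ P.1 ^ n → W.Δ ∈ P.1 ^ n)
    (U : Set ℂ) (f : ℂ → ℂ) (_hU : IsOpen U) (hU1 : ∀ x : ℝ, 1 ≤ x → (x : ℂ) ∈ U)
    (hf : AnalyticOnNhd ℂ f U)
    (hprod : ∀ s : ℂ, 3 / 2 < s.re → f s = ∏' P : {P : Ideal (𝓞 K) // P.IsPrime ∧ P ≠ ⊥},
         (1 - ((Nat.card (𝓞 K ⧸ P.1) : ℂ)
               - (Nat.card {xy : (𝓞 K ⧸ P.1) × (𝓞 K ⧸ P.1) //
                   ((M P).map (Ideal.Quotient.mk P.1)).toAffine.Equation xy.1 xy.2} : ℂ))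
             * (Nat.card (𝓞 K ⧸ P.1) : ℂ) ^ (-s)
           + (if (M P).Δ ∈ P.1 then 0 else (Nat.card (𝓞 K ⧸ P.1) : ℂ) ^ (1 - 2 * s)))⁻¹)
    {γ : ℝ} (hγ : Real.pi / 2 < γ) :
    (∀ σ T : ℝ, 0 < T → Summable fun z => ‖term M σ γ T z‖) ∧
    ∃ δ : ℝ, 0 < δ ∧ ∀ ε : ℝ, 0 < ε → ε ≤ δ →
      Tendsto (fun T : ℝ => ((S M (1 + ε) γ T).im - (S M (1 - ε) γ T).im) / Real.pi) atTop
        (𝓝 (analyticOrderNatAt f 1)) ∧
      List.TFAE [Even (analyticOrderNatAt f 1 + Module.finrank ℤ E.toAffine.Point),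
        ∀ᶠ T : ℝ in atTop, 0 < (-1) ^ Module.finrank ℤ E.toAffine.Point *
          (Complex.exp (S M (1 - ε) γ T) * Complex.exp (S M (1 + ε) γ T)).re,
        ∃ᶠ T : ℝ in atTop, 0 < (-1) ^ Module.finrank ℤ E.toAffine.Point *
          (Complex.exp (S M (1 - ε) γ T) * Complex.exp (S M (1 + ε) γ T)).re] := by
  have hE := eul M
  have hR := real_sums M
  refine ⟨fun σ T hT => ?_, ?_⟩
  · simp only [term_eq]
    exact hE.sterm_summable σ γ hT
  have hA : ∀ x : ℝ, (1 : ℝ) ≤ x → AnalyticAt ℂ f (x : ℂ) := fun x hx => hf _ (hU1 x hx)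
  have hF := hasProd_of M hprod
  obtain ⟨δ, hδ, h1, h2⟩ := Pool.Agent.Q117.ML.exists_points hE (c := 1) (by norm_num) hA hF
  refine ⟨min δ 1, lt_min hδ one_pos, fun ε hε hεδ => ?_⟩
  have hε1 : ε ≤ δ := hεδ.trans (min_le_left _ _)
  have hε2 : ε ≤ 1 := hεδ.trans (min_le_right _ _)
  have h3 := Pool.Agent.Q117.ML.order_two_points hE hR (c := 1) (σ₁ := 1 - ε) (σ₂ := 1 + ε)
    (by linarith) (by linarith) (by linarith) (fun x hx => h1 x (by linarith)) hF
    (fun x hx hx' hne => h2 x (by linarith) (by linarith) hne) hγ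
  simp only [smooth_eq, Complex.ofReal_one] at h3
  exact ⟨h3.1, h3.2 _⟩

end Pool.Agent.Results.MP_413b36_nt.ParityByArguments
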