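import Mathlib
import Pool.Agent.Q18.P.EC

/-!
# Birch and Swinnerton-Dyer modulo 2 and Euler products on one sequence of windows

Let `E : y² = x³ + a x + b` be an elliptic curve over a number field `K`, `a, b ∈ 𝓞_K`, `S` a finite set of places
containing those which divide `6 (4 a³ + 27 b²)`, and let `F` be a continuation of the incomplete `L`-function
`∏_{v ∉ S} (1 - a_v q_v^{-s} + q_v^{1-2s})⁻¹` of `E/K`. The missing Euler factors have neither zeros nor poles for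
`Re s ≥ 1`, so that `ord_{s=1} F = ord_{s=1} Λ(E/K, s)`. Let `P(y) = ∏_{v ∉ S, q_v ≤ y} #E(k_v)/q_v` be the product of
Birch and Swinnerton-Dyer. Fix `0 < δ < 1`; the windows are the intervals `[Y^(1-δ), Y]`, and `M_Y(G)` is the integral
of `G(y) dy/y` over the window. `r` is an integer, e.g. the rank of `E(K)`.

(A) `F` is only assumed to be meromorphic at the points with `Re s > 1` and at `1`.
1. If for some integer `m ≡ r (mod 2)` and some `B` we have `M_Y(|log P - m log log|) ≤ B log Y` for arbitrarily large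
   `Y` (one sequence of windows, as sparse as we like), then `ord_{s=1} F ≡ r (mod 2)`; moreover `ord_{s=1} F = m`, and `F`
   has neither zeros nor poles with `Re s > 1`.
(B) `F` is holomorphic and of polynomial growth in a half plane `Re s > 1 - η` (as for modular `E/K`).
2. The congruence `ord_{s=1} F ≡ r (mod 2)` together with the Riemann hypothesis for `E/K` is equivalent to the
   condition of 1.; and to the same condition with `for all large Y`.
3. (Upper and lower bounds on different sequences, with gaps in the exponents.) The congruence together with the Riemann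
   hypothesis is also equivalent to: for some `m ≡ r (mod 2)`, some `κ < m + 1` and some `κ' > m - 1`,
   `M_Y(max(log P - κ log log, 0)) ≤ B log Y` for arbitrarily large `Y`, and
   `M_Y(max(κ' log log - log P, 0)) ≤ B' log Y` for arbitrarily large `Y`, for some `B`, `B'`.
4. The equality `ord_{s=1} F = r` together with the Riemann hypothesis is equivalent to these two bounds with ANY given
   `κ`, `κ'` with `r - 1 < κ' ≤ r ≤ κ < r + 1`; and if the congruence `ord_{s=1} F ≡ r (mod 2)` is known (e.g. from the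
   functional equation and a parity theorem for Selmer groups), with any given `r - 2 < κ' ≤ r ≤ κ < r + 2`.
-/

set_option autoImplicit false

namespace Pool.Agent.Results.MP_413b36_nt.ParityWindows

open Filter Topology Set Complex NumberField IsDedekindDomain MeasureTheory
open Pool.Agent.Q18.P (NoZeros Order Holo MeanBound excess deficit error Free)
open Pool.Agent.Q18.P.EC (Good Euler product)

/-- `F` is meromorphic at every point with `Re s > 1` and at `1`. -/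
def Mero (F : ℂ → ℂ) : Prop := (∀ s : ℂ, 1 < s.re → MeromorphicAt F s) ∧ MeromorphicAt F ((1 : ℝ) : ℂ)

/-- the order at `1` is an integer congruent to `r` modulo `2` -/
def ParityAt (F : ℂ → ℂ) (r : ℤ) : Prop := ∃ m : ℤ, Order 1 F m ∧ 2 ∣ m - r

/-- **Birch and Swinnerton-Dyer modulo 2, the Riemann hypothesis, and Euler products on one sequence of windows.** -/
theorem result (K : Type) [Field K] [NumberField K] (a b : 𝓞 K) (S : Finset (HeightOneSpectrum (𝓞 K)))
    (hS : ∀ v, v ∉ S → Good a b v) (F : ℂ → ℂ) (hE : Euler S a b F) (δ : ℝ) (h0 : 0 < δ) (h1 : δ < 1) (r : ℤ) :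
    -- (1) `F` meromorphic
    (Mero F → ∀ (m : ℤ) (B : ℝ), 2 ∣ m - r → (∃ᶠ Y : ℝ in atTop, MeanBound δ (error (product S a b) m) B Y) →
      ParityAt F r ∧ Order 1 F m ∧ Free 1 F) ∧
    (Holo 1 F →
      -- (2) the congruence and the Riemann hypothesis
      List.TFAE [
        NoZeros 1 F ∧ ParityAt F r,
        ∃ (m : ℤ) (B : ℝ), 2 ∣ m - r ∧ ∃ᶠ Y : ℝ in atTop, MeanBound δ (error (product S a b) m) B Y,
        ∃ (m : ℤ) (B : ℝ), 2 ∣ m - r ∧ ∀ᶠ Y : ℝ in atTop, MeanBound δ (error (product S a b) m) B Y,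
        -- (3) upper and lower bounds
        ∃ (m : ℤ) (κ κ' B B' : ℝ), 2 ∣ m - r ∧ κ < m + 1 ∧ (m : ℝ) - 1 < κ' ∧
          (∃ᶠ Y : ℝ in atTop, MeanBound δ (excess (product S a b) κ) B Y) ∧
          ∃ᶠ Y : ℝ in atTop, MeanBound δ (deficit (product S a b) κ') B' Y] ∧
      -- (4) the equality
      (∀ κ κ' : ℝ, (r : ℝ) - 1 < κ' → κ' ≤ r → (r : ℝ) ≤ κ → κ < r + 1 →
        ((NoZeros 1 F ∧ Order 1 F r) ↔
          (∃ B : ℝ, ∃ᶠ Y : ℝ in atTop, MeanBound δ (excess (product S a b) κ) B Y) ∧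
          ∃ B : ℝ, ∃ᶠ Y : ℝ in atTop, MeanBound δ (deficit (product S a b) κ') B Y)) ∧
      ((∀ m : ℤ, Order 1 F m → 2 ∣ m - r) → ∀ κ κ' : ℝ, (r : ℝ) - 2 < κ' → κ' ≤ r → (r : ℝ) ≤ κ → κ < r + 2 →
        ((NoZeros 1 F ∧ Order 1 F r) ↔
          (∃ B : ℝ, ∃ᶠ Y : ℝ in atTop, MeanBound δ (excess (product S a b) κ) B Y) ∧
          ∃ B : ℝ, ∃ᶠ Y : ℝ in atTop, MeanBound δ (deficit (product S a b) κ') B Y))) := by
  have hP := Pool.Agent.Q18.P.EC.pure (a := a) (b := b) hS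
  have hE' := Pool.Agent.Q18.P.EC.euler hS hE
  rw [Pool.Agent.Q18.P.EC.product_eq hS]
  set α := Pool.Agent.Q18.P.EC.al a b with hα
  refine ⟨fun hm m B hmr hB => ?_, fun hH => ?_⟩
  · obtain ⟨f1, m', f2, f3⟩ := Pool.Agent.Q18.P.two Pool.Agent.Q18.P.EC.one_c hP ⟨hm.1, hm.2, hE'⟩ h0 h1 hB
    have e1 : m = m' := by exact_mod_cast f2
    rw [← e1] at f3
    exact ⟨⟨m, f3, hmr⟩, f3, f1⟩
  have L := Pool.Agent.Q18.P.laws Pool.Agent.Q18.P.EC.one_c hP.le hH hE' h0 h1
  have Sw := fun κ κ' : ℝ => (Pool.Agent.Q18.P.Laws.sandwich Pool.Agent.Q18.P.EC.one_c hP.le hH hE' h0 h1 κ κ').out 0 1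
  have key : ∀ κ κ' : ℝ, (NoZeros 1 F ∧ ∃ m : ℤ, Order 1 F m ∧ κ' ≤ m ∧ (m : ℝ) ≤ κ) ↔
      (∃ B : ℝ, ∃ᶠ Y : ℝ in atTop, MeanBound δ (excess (Pool.Agent.Q18.P.product 1 S α) κ) B Y) ∧
        ∃ B : ℝ, ∃ᶠ Y : ℝ in atTop, MeanBound δ (deficit (Pool.Agent.Q18.P.product 1 S α) κ') B Y := Sw
  have ord : ∀ m : ℤ, (NoZeros 1 F ∧ Order 1 F m) ↔
      ∃ B : ℝ, ∃ᶠ Y : ℝ in atTop, MeanBound δ (error (Pool.Agent.Q18.P.product 1 S α) m) B Y :=
    fun m => (L.order m).out 0 1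
  have ord' : ∀ m : ℤ, (NoZeros 1 F ∧ Order 1 F m) ↔
      ∃ B : ℝ, ∀ᶠ Y : ℝ in atTop, MeanBound δ (error (Pool.Agent.Q18.P.product 1 S α) m) B Y :=
    fun m => (L.order m).out 0 2
  refine ⟨?_, fun κ κ' g1 g2 g3 g4 => ?_, fun hp κ κ' g1 g2 g3 g4 => ?_⟩
  · tfae_have 1 → 3 := by
      rintro ⟨hz, m, hm, hmr⟩
      obtain ⟨B, hB⟩ := (ord' m).1 ⟨hz, hm⟩
      exact ⟨m, B, hmr, hB⟩
    tfae_have 3 → 2 := fun ⟨m, B, hmr, hB⟩ => ⟨m, B, hmr, hB.frequently⟩
    tfae_have 2 → 1 := by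
      rintro ⟨m, B, hmr, hB⟩
      obtain ⟨hz, hm⟩ := (ord m).2 ⟨B, hB⟩
      exact ⟨hz, m, hm, hmr⟩
    tfae_have 1 → 4 := by
      rintro ⟨hz, m, hm, hmr⟩
      obtain ⟨⟨B, hB⟩, ⟨B', hB'⟩⟩ := (key m m).1 ⟨hz, m, hm, le_rfl, le_rfl⟩
      exact ⟨m, m, m, B, B', hmr, by linarith, by linarith, hB, hB'⟩
    tfae_have 4 → 1 := by
      rintro ⟨m, κ, κ', B, B', hmr, g1, g2, hB, hB'⟩
      obtain ⟨hz, m', hm', l1, l2⟩ := (key κ κ').2 ⟨⟨B, hB⟩, ⟨B', hB'⟩⟩
      have l3 : (m' : ℝ) < m + 1 := lt_of_le_of_lt l2 g1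
      have l4 : (m : ℝ) - 1 < m' := lt_of_lt_of_le g2 l1
      have l5 : m' < m + 1 := by exact_mod_cast l3
      have l6 : m - 1 < m' := by exact_mod_cast l4
      have l7 : m' = m := by omega
      rw [l7] at hm'
      exact ⟨hz, m, hm', hmr⟩
    tfae_finish
  · rw [← key κ κ']
    refine and_congr_right fun _ => ⟨fun h => ⟨r, h, g2, g3⟩, ?_⟩
    rintro ⟨m, hm, l1, l2⟩
    have l3 : (m : ℝ) < r + 1 := lt_of_le_of_lt l2 g4
    have l4 : (r : ℝ) - 1 < m := lt_of_lt_of_le g1 l1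
    have l5 : m < r + 1 := by exact_mod_cast l3
    have l6 : r - 1 < m := by exact_mod_cast l4
    have l7 : m = r := by omega
    rw [← l7]
    exact hm
  · rw [← key κ κ']
    refine and_congr_right fun _ => ⟨fun h => ⟨r, h, g2, g3⟩, ?_⟩
    rintro ⟨m, hm, l1, l2⟩
    have l3 : (m : ℝ) < r + 2 := lt_of_le_of_lt l2 g4
    have l4 : (r : ℝ) - 2 < m := lt_of_lt_of_le g1 l1
    have l5 : m < r + 2 := by exact_mod_cast l3
    have l6 : r - 2 < m := by exact_mod_cast l4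
    have l8 := hp m hm
    have l7 : m = r := by omega
    rw [← l7]
    exact hm

end Pool.Agent.Results.MP_413b36_nt.ParityWindows
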